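import Pool.Agent.R489.HB.Stm

/-! # HB-FCG: forest classes and gluing at a triangle (helper466) -/

set_option autoImplicit false

namespace Pool.Agent.R466.HB

open Finset Pool.Agent.R489.HB

theorem li_iff {W : Type} [DecidableEq W] (X : Set (Finset W)) :
    LinearIndepOn (ZMod 2) ind X ↔
      ∀ S : Finset (Finset W), (↑S : Set (Finset W)) ⊆ X → ∑ e ∈ S, ind e = 0 → S = ∅ := by
  rw [linearIndepOn_iff']
  constructor
  · intro h S hS h0
    rw [Finset.eq_empty_iff_forall_notMem]
    intro e he
    have := h S (fun _ => 1) hS (by simpa using h0) e he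
    exact one_ne_zero this
  · intro h t g ht h0
    have h1 : t.filter (fun e => g e ≠ 0) = ∅ := by
      apply h
      · intro e he
        exact ht (Finset.mem_coe.2 (Finset.mem_filter.1 (Finset.mem_coe.1 he)).1)
      · rw [Finset.sum_filter]
        refine Eq.trans ?_ h0
        refine Finset.sum_congr rfl fun e _ => ?_
        have h2 : g e = 0 ∨ g e = 1 := by
          generalize g e = z
          revert z
          decide
        rcases h2 with h2 | h2
        · simp [h2]
        · simp [h2]
    intro e he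
    by_contra hne
    have : e ∈ t.filter (fun e => g e ≠ 0) := Finset.mem_filter.2 ⟨he, hne⟩
    rw [h1] at this
    exact absurd this (Finset.notMem_empty e)

theorem edg_insert {W : Type} [DecidableEq W] (Φ : Finset (Finset W)) (T : Finset W) :
    edg (insert T Φ) = T.powersetCard 2 ∪ edg Φ := by
  unfold edg
  rw [Finset.biUnion_insert]

theorem edg_union {W : Type} [DecidableEq W] (Φ1 Φ2 : Finset (Finset W)) :
    edg (Φ1 ∪ Φ2) = edg Φ1 ∪ edg Φ2 := by
  unfold edg
  rw [Finset.union_biUnion]

theorem edg_card {W : Type} [DecidableEq W] {Φ : Finset (Finset W)} {e : Finset W}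
    (h : e ∈ edg Φ) : e.card = 2 := by
  unfold edg at h
  rw [Finset.mem_biUnion] at h
  obtain ⟨f, _, hf⟩ := h
  exact (Finset.mem_powersetCard.1 hf).2

theorem edg_vts {W : Type} [DecidableEq W] {Φ : Finset (Finset W)} {e : Finset W}
    (h : e ∈ edg Φ) : e ⊆ vts Φ := by
  unfold edg at h
  rw [Finset.mem_biUnion] at h
  obtain ⟨f, hf, hf'⟩ := h
  intro x hx
  unfold vts
  rw [Finset.mem_biUnion]
  exact ⟨f, hf, (Finset.mem_powersetCard.1 hf').1 hx⟩

theorem zmod_double (z : ZMod 2) : z + z = 0 := by
  revert z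
  decide

theorem fun_double {W : Type} (w : W → ZMod 2) : w + w = 0 := by
  funext x
  exact zmod_double (w x)

/-- a mono edge has even intersection with every class -/
theorem class_even {W : Type} [DecidableEq W] {a : W → Fin 3} {e X : Finset W} (hc : e.card = 2)
    (hm : mono a e) (hX : e ⊆ X) (i : Fin 3) :
    ∑ x ∈ X.filter (fun x => a x = i), ind e x = 0 := by
  unfold ind
  rw [Finset.sum_ite, Finset.sum_const_zero, add_zero, Finset.sum_const, nsmul_eq_mul, mul_one]
  have e1 : (X.filter (fun x => a x = i)).filter (fun x => x ∈ e) = e.filter (fun x => a x = i) := by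
    ext x
    simp only [Finset.mem_filter]
    constructor
    · rintro ⟨⟨_, h2⟩, h3⟩; exact ⟨h3, h2⟩
    · rintro ⟨h3, h2⟩; exact ⟨⟨hX h3, h2⟩, h3⟩
  rw [e1]
  by_cases h : ∃ x ∈ e, a x = i
  · obtain ⟨x, hx, hax⟩ := h
    have : e.filter (fun x => a x = i) = e := by
      apply Finset.filter_true_of_mem
      intro y hy
      rw [hm y hy x hx, hax]
    rw [this, hc]
    decide
  · have : e.filter (fun x => a x = i) = ∅ := by
      apply Finset.filter_false_of_mem
      intro y hy hay
      exact h ⟨y, hy, hay⟩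
    rw [this, Finset.card_empty, Nat.cast_zero]

theorem sum_apply' {W : Type} [DecidableEq W] (S : Finset (Finset W)) (x : W) :
    (∑ e ∈ S, ind e) x = ∑ e ∈ S, ind e x := by
  rw [Finset.sum_apply]

theorem supp_vts {W : Type} [DecidableEq W] {Φ : Finset (Finset W)} {S : Finset (Finset W)}
    (hS : S ⊆ edg Φ) {x : W} (hx : (∑ e ∈ S, ind e) x ≠ 0) : x ∈ vts Φ := by
  rw [sum_apply'] at hx
  obtain ⟨e, he, hne⟩ := Finset.exists_ne_zero_of_sum_ne_zero hx
  have : x ∈ e := by
    by_contra hcon
    apply hne
    unfold ind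
    rw [if_neg hcon]
  exact edg_vts (hS he) this

/-- the support of `w` in the triangle: empty, or two vertices of one class -/
theorem tri_supp {W : Type} [DecidableEq W] {a : W → Fin 3} {T D : Finset W} (hT : T.card = 3)
    (hD : D ⊆ T) (hev : ∀ i : Fin 3, Even (D.filter (fun x => a x = i)).card) :
    D = ∅ ∨ ∃ s s' : W, s ≠ s' ∧ D = {s, s'} ∧ a s = a s' := by
  by_cases h0 : D = ∅
  · exact Or.inl h0
  right
  obtain ⟨s, hs⟩ := Finset.nonempty_iff_ne_empty.2 h0
  have hs1 : s ∈ D.filter (fun x => a x = a s) := Finset.mem_filter.2 ⟨hs, rfl⟩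
  have h2 : 1 < (D.filter (fun x => a x = a s)).card := by
    have hpos : 0 < (D.filter (fun x => a x = a s)).card := Finset.card_pos.2 ⟨s, hs1⟩
    have := hev (a s)
    rcases this with ⟨r, hr⟩
    omega
  obtain ⟨s', hs', hne⟩ := Finset.exists_mem_ne h2 s
  rw [Finset.mem_filter] at hs'
  refine ⟨s, s', hne.symm, ?_, hs'.2.symm⟩
  -- a third element is impossible
  have hsub : ({s, s'} : Finset W) ⊆ D := by
    intro x hx
    rw [Finset.mem_insert, Finset.mem_singleton] at hx
    rcases hx with rfl | rfl
    · exact hs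
    · exact hs'.1
  symm
  apply Finset.eq_of_subset_of_card_le hsub
  rw [Finset.card_pair hne.symm]
  by_contra hcon
  push Not at hcon
  have hD3 : D.card ≤ 3 := hT ▸ Finset.card_le_card hD
  have hDc : D.card = 3 := by omega
  -- parity
  have hsum : D.card = ∑ i : Fin 3, (D.filter (fun x => a x = i)).card :=
    Finset.card_eq_sum_card_fiberwise (fun x _ => Finset.mem_coe.2 (Finset.mem_univ _))
  have : Even D.card := by
    rw [hsum]
    exact Finset.even_sum _ (fun i _ => hev i)
  rw [hDc] at this
  exact absurd this (by decide)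

theorem FCG : S_FCG := by
  intro W _ Φ1 Φ2 T' a _ hT hv he
  have hp1 : T'.powersetCard 2 ⊆ edg Φ1 := by rw [← he]; exact Finset.inter_subset_left
  have hp2 : T'.powersetCard 2 ⊆ edg Φ2 := by rw [← he]; exact Finset.inter_subset_right
  have i1 : edg (insert T' Φ1) = edg Φ1 := by rw [edg_insert, Finset.union_eq_right.2 hp1]
  have i2 : edg (insert T' Φ2) = edg Φ2 := by rw [edg_insert, Finset.union_eq_right.2 hp2]
  unfold FC
  rw [i1, i2, edg_union]
  constructor
  · intro h
    constructor
    · refine h.mono ?_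
      rintro e ⟨h1, h2⟩
      exact ⟨Finset.mem_union_left _ h1, h2⟩
    · refine h.mono ?_
      rintro e ⟨h1, h2⟩
      exact ⟨Finset.mem_union_right _ h1, h2⟩
  · rintro ⟨h1, h2⟩
    rw [li_iff] at h1 h2 ⊢
    intro S hS h0
    obtain ⟨S1, hS1⟩ : ∃ S1, S1 = S.filter (fun e => e ∈ edg Φ1) := ⟨_, rfl⟩
    obtain ⟨S2, hS2⟩ : ∃ S2, S2 = S.filter (fun e => ¬ e ∈ edg Φ1) := ⟨_, rfl⟩
    have hsplit : ∑ e ∈ S1, ind e + ∑ e ∈ S2, ind e = 0 := by
      rw [hS1, hS2, Finset.sum_filter_add_sum_filter_not]
      exact h0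
    have m1 : ∀ e ∈ S1, e ∈ edg Φ1 ∧ mono a e := by
      intro e he'
      rw [hS1, Finset.mem_filter] at he'
      exact ⟨he'.2, (hS (Finset.mem_coe.2 he'.1)).2⟩
    have m2 : ∀ e ∈ S2, e ∈ edg Φ2 ∧ e ∉ edg Φ1 ∧ mono a e := by
      intro e he'
      rw [hS2, Finset.mem_filter] at he'
      have h3 := hS (Finset.mem_coe.2 he'.1)
      refine ⟨?_, he'.2, h3.2⟩
      have h4 : e ∈ edg Φ1 ∪ edg Φ2 := h3.1
      rw [Finset.mem_union] at h4
      exact h4.resolve_left he'.2
    obtain ⟨w, hw⟩ : ∃ w : W → ZMod 2, w = ∑ e ∈ S2, ind e := ⟨_, rfl⟩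
    have hw1 : ∑ e ∈ S1, ind e = w := by
      have h3 : ∑ e ∈ S1, ind e + w = 0 := by rw [hw]; exact hsplit
      have h4 := fun_double w
      calc ∑ e ∈ S1, ind e = ∑ e ∈ S1, ind e + (w + w) := by rw [h4, add_zero]
        _ = (∑ e ∈ S1, ind e + w) + w := by rw [add_assoc]
        _ = w := by rw [h3, zero_add]
    have hsupp : ∀ x, w x ≠ 0 → x ∈ T' := by
      intro x hx
      rw [← hv, Finset.mem_inter]
      constructor
      · apply supp_vts (S := S1) (fun e h => (m1 e h).1)
        rw [hw1]; exact hx
      · apply supp_vts (S := S2) (fun e h => (m2 e h).1)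
        rw [← hw]; exact hx
    obtain ⟨D, hDdef⟩ : ∃ D, D = T'.filter (fun x => w x ≠ 0) := ⟨_, rfl⟩
    have hw2 : ∀ x, w x = if x ∈ D then 1 else 0 := by
      intro x
      have h01 : w x = 0 ∨ w x = 1 := by
        generalize w x = z
        revert z
        decide
      by_cases hx : x ∈ D
      · rw [if_pos hx]
        rw [hDdef, Finset.mem_filter] at hx
        exact h01.resolve_left hx.2
      · rw [if_neg hx]
        by_contra hne
        apply hx
        rw [hDdef, Finset.mem_filter]
        exact ⟨hsupp x hne, hne⟩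
    have hev : ∀ i : Fin 3, Even (D.filter (fun x => a x = i)).card := by
      intro i
      obtain ⟨X, hX⟩ : ∃ X, X = vts Φ2 := ⟨_, rfl⟩
      have hsum : ∑ x ∈ X.filter (fun x => a x = i), w x = 0 := by
        have : ∀ x, w x = ∑ e ∈ S2, ind e x := by
          intro x
          rw [hw, sum_apply']
        simp only [this]
        rw [Finset.sum_comm]
        apply Finset.sum_eq_zero
        intro e he'
        exact class_even (edg_card (m2 e he').1) (m2 e he').2.2 (by rw [hX]; exact edg_vts (m2 e he').1) i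
      simp only [hw2] at hsum
      rw [Finset.sum_ite, Finset.sum_const_zero, add_zero, Finset.sum_const, nsmul_eq_mul,
        mul_one] at hsum
      have e1 : (X.filter (fun x => a x = i)).filter (fun x => x ∈ D) =
          D.filter (fun x => a x = i) := by
        ext x
        simp only [Finset.mem_filter]
        constructor
        · rintro ⟨⟨_, q2⟩, q3⟩; exact ⟨q3, q2⟩
        · rintro ⟨q3, q2⟩
          refine ⟨⟨?_, q2⟩, q3⟩
          rw [hDdef, Finset.mem_filter] at q3
          have : x ∈ vts Φ1 ∩ vts Φ2 := by rw [hv]; exact q3.1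
          rw [hX]
          exact (Finset.mem_inter.1 this).2
      rw [e1] at hsum
      exact (ZMod.natCast_eq_zero_iff_even).1 hsum
    rcases tri_supp hT (by rw [hDdef]; exact Finset.filter_subset _ _) hev with hD0 | hD2
    · -- w = 0
      have hw0 : w = 0 := by
        funext x
        rw [hw2 x, hD0]
        simp
      have z2 : S2 = ∅ := h2 S2 (fun e he' => ⟨(m2 e he').1, (m2 e he').2.2⟩) (by rw [← hw, hw0])
      have z1 : S1 = ∅ := h1 S1 (fun e he' => m1 e he') (by rw [hw1, hw0])
      have : S = S1 ∪ S2 := by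
        rw [hS1, hS2, Finset.filter_union_filter_not_eq]
      rw [this, z1, z2, Finset.union_empty]
    · exfalso
      obtain ⟨s, s', hne, hDs, has⟩ := hD2
      have hsub : ({s, s'} : Finset W) ⊆ T' := by
        rw [← hDs, hDdef]
        exact Finset.filter_subset _ _
      have hmem : ({s, s'} : Finset W) ∈ T'.powersetCard 2 :=
        Finset.mem_powersetCard.2 ⟨hsub, Finset.card_pair hne⟩
      have hnot : ({s, s'} : Finset W) ∉ S2 := fun hc => (m2 _ hc).2.1 (hp1 hmem)
      have hmono : mono a ({s, s'} : Finset W) := by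
        intro x hx y hy
        rw [Finset.mem_insert, Finset.mem_singleton] at hx hy
        rcases hx with rfl | rfl <;> rcases hy with rfl | rfl
        · rfl
        · exact has
        · exact has.symm
        · rfl
      have hind : ind ({s, s'} : Finset W) = w := by
        funext x
        rw [hw2 x, hDs]
        rfl
      have := h2 (insert {s, s'} S2) (by
        intro e he'
        rw [Finset.mem_coe, Finset.mem_insert] at he'
        rcases he' with rfl | he'
        · exact ⟨hp2 hmem, hmono⟩
        · exact ⟨(m2 e he').1, (m2 e he').2.2⟩) (by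
        rw [Finset.sum_insert hnot, hind, ← hw]
        exact fun_double w)
      exact absurd this (Finset.insert_ne_empty _ _)

end Pool.Agent.R466.HB
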